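import Mathlib

set_option autoImplicit false

/-!
# A syntactic convex monoid which is not finitely presentable

Over every nonempty finite alphabet the language `L(w) = (2^{-|w|} + 4^{-|w|}) / 2` is computed by a
probabilistic finite automaton with three states, and its syntactic convex monoid is not finitely
presentable.

The syntactic convex monoid is the convex hull of the points `v_n = (2^{-n}, 4^{-n})` of a parabola,
with `v_m * v_n = v_{m+n}`.  All the `v_n` are extreme points.  For `g ≥ 2` the segments `[v_0, v_g]`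
and `[v_1, v_{g+1}]` cross.  The resulting relation cannot be derived from finitely many valid
relations if `g` is large: a distribution on `{a^i, a^{i+g}}` cannot be rewritten at all.
-/

namespace Pool.Agent.Results.MP_492578_lc.NotFinitelyPresentable

open NNReal

/-- Convex monoids: a convex set with operations `x +_r y`, written `mix r x y` (which stands for
`r x + (1 - r) y`), together with a monoid structure whose multiplication is affine in each
variable. -/
class ConvexMonoid (M : Type) extends Monoid M where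
  mix : unitInterval → M → M → M
  mix_one : ∀ x y, mix 1 x y = x
  mix_self : ∀ r x, mix r x x = x
  mix_comm : ∀ r x y, mix r x y = mix (unitInterval.symm r) y x
  mix_assoc : ∀ (r s t u : unitInterval) (x y z : M), (u : ℝ) = r * s →
    (1 - (u : ℝ)) * t = (1 - (r : ℝ)) * s → mix s (mix r x y) z = mix u x (mix t y z)
  mul_mix : ∀ r x y z, x * mix r y z = mix r (x * y) (x * z)
  mix_mul : ∀ r x y z, mix r x y * z = mix r (x * z) (y * z)

open ConvexMonoid

/-- Homomorphisms of convex monoids. -/
structure Hom (M N : Type) [ConvexMonoid M] [ConvexMonoid N] where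
  toFun : M → N
  map_one : toFun 1 = 1
  map_mul : ∀ x y, toFun (x * y) = toFun x * toFun y
  map_mix : ∀ r x y, toFun (mix r x y) = mix r (toFun x) (toFun y)

/-- The finitely supported nonnegative functions on the words over `G`, with convolution. -/
abbrev Alg (G : Type) : Type := MonoidAlgebra ℝ≥0 (FreeMonoid G)

/-- The sum of the coefficients. -/
noncomputable def mass {G : Type} (x : Alg G) : ℝ≥0 := x.coeff.sum fun _ r => r

/-- `∑ x(w) b^|w|`. -/
noncomputable def mom (G : Type) (b : ℝ≥0) : Alg G →ₐ[ℝ≥0] ℝ≥0 :=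
  MonoidAlgebra.lift ℝ≥0 ℝ≥0 (FreeMonoid G) (FreeMonoid.lift fun _ => b)

theorem lift_pow {G : Type} (b : ℝ≥0) (w : FreeMonoid G) :
    FreeMonoid.lift (fun _ => b) w = b ^ w.length := by
  induction w using FreeMonoid.inductionOn' with
  | one => simp
  | of_mul a w ih => rw [map_mul, ih, FreeMonoid.lift_eval_of, FreeMonoid.length_mul,
      FreeMonoid.length_of, pow_add, pow_one]

theorem mom_apply {G : Type} (b : ℝ≥0) (x : Alg G) :
    mom G b x = x.coeff.sum fun w r => r * b ^ w.length := by
  unfold mom
  rw [MonoidAlgebra.lift_apply]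
  simp only [lift_pow, smul_eq_mul]

theorem mass_eq {G : Type} (x : Alg G) : mass x = mom G 1 x := by
  rw [mom_apply]
  simp [mass]

/-- The finitely supported probability distributions on the words over `G`, as a submonoid. -/
noncomputable def dists (G : Type) : Submonoid (Alg G) where
  carrier := {x | mass x = 1}
  one_mem' := by
    show mass 1 = 1
    rw [mass_eq, map_one]
  mul_mem' := by
    intro x y hx hy
    show mass (x * y) = 1
    rw [mass_eq, map_mul, ← mass_eq, ← mass_eq, hx, hy, one_mul]

/-- `𝒟 G*`: the finitely supported probability distributions on the words over `G`. -/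
abbrev Dist (G : Type) : Type := dists G

theorem mass_dist {G : Type} (x : Dist G) : mass x.1 = 1 := x.2

theorem toNNReal_add_symm (r : unitInterval) :
    unitInterval.toNNReal r + unitInterval.toNNReal (unitInterval.symm r) = 1 := by
  apply NNReal.eq
  push_cast
  rw [unitInterval.coe_toNNReal, unitInterval.coe_toNNReal, unitInterval.coe_symm_eq]
  ring

noncomputable instance (G : Type) : ConvexMonoid (Dist G) where
  mix r x y := ⟨unitInterval.toNNReal r • x.1 +
    unitInterval.toNNReal (unitInterval.symm r) • y.1, by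
      show mass _ = 1
      rw [mass_eq, map_add, map_smul, map_smul, ← mass_eq, ← mass_eq, mass_dist, mass_dist,
        smul_eq_mul, smul_eq_mul, mul_one, mul_one]
      exact toNNReal_add_symm r⟩
  mix_one x y := by
    apply Subtype.ext
    have h1 : unitInterval.toNNReal 1 = 1 := by apply NNReal.eq; rfl
    have h2 : unitInterval.toNNReal (unitInterval.symm 1) = 0 := by
      apply NNReal.eq
      rw [unitInterval.coe_toNNReal, unitInterval.symm_one]
      rfl
    show unitInterval.toNNReal 1 • x.1 + unitInterval.toNNReal (unitInterval.symm 1) • y.1 = x.1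
    rw [h1, h2, one_smul, zero_smul, add_zero]
  mix_self r x := by
    apply Subtype.ext
    show unitInterval.toNNReal r • x.1 + unitInterval.toNNReal (unitInterval.symm r) • x.1 = x.1
    rw [← add_smul, toNNReal_add_symm, one_smul]
  mix_comm r x y := by
    apply Subtype.ext
    show unitInterval.toNNReal r • x.1 + unitInterval.toNNReal (unitInterval.symm r) • y.1 =
      unitInterval.toNNReal (unitInterval.symm r) • y.1 +
        unitInterval.toNNReal (unitInterval.symm (unitInterval.symm r)) • x.1
    rw [unitInterval.symm_symm, add_comm]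
  mix_assoc r s t u x y z h1 h2 := by
    apply Subtype.ext
    show unitInterval.toNNReal s • (unitInterval.toNNReal r • x.1 +
      unitInterval.toNNReal (unitInterval.symm r) • y.1) +
        unitInterval.toNNReal (unitInterval.symm s) • z.1 =
      unitInterval.toNNReal u • x.1 + unitInterval.toNNReal (unitInterval.symm u) •
        (unitInterval.toNNReal t • y.1 + unitInterval.toNNReal (unitInterval.symm t) • z.1)
    rw [smul_add, smul_add, smul_smul, smul_smul, smul_smul, smul_smul]
    have e1 : unitInterval.toNNReal s * unitInterval.toNNReal r = unitInterval.toNNReal u := by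
      apply NNReal.eq
      push_cast
      simp only [unitInterval.coe_toNNReal]
      rw [h1, mul_comm]
    have e2 : unitInterval.toNNReal s * unitInterval.toNNReal (unitInterval.symm r) =
        unitInterval.toNNReal (unitInterval.symm u) * unitInterval.toNNReal t := by
      apply NNReal.eq
      push_cast
      simp only [unitInterval.coe_toNNReal, unitInterval.coe_symm_eq]
      rw [h2, mul_comm]
    have e3 : unitInterval.toNNReal (unitInterval.symm s) =
        unitInterval.toNNReal (unitInterval.symm u) *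
          unitInterval.toNNReal (unitInterval.symm t) := by
      apply NNReal.eq
      push_cast
      simp only [unitInterval.coe_toNNReal, unitInterval.coe_symm_eq]
      linear_combination h2 + h1
    rw [e1, e2, e3, add_assoc]
  mul_mix r x y z := by
    apply Subtype.ext
    show x.1 * (unitInterval.toNNReal r • y.1 +
      unitInterval.toNNReal (unitInterval.symm r) • z.1) =
      unitInterval.toNNReal r • (x.1 * y.1) +
        unitInterval.toNNReal (unitInterval.symm r) • (x.1 * z.1)
    rw [mul_add, mul_smul_comm, mul_smul_comm]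
  mix_mul r x y z := by
    apply Subtype.ext
    show (unitInterval.toNNReal r • x.1 +
      unitInterval.toNNReal (unitInterval.symm r) • y.1) * z.1 =
      unitInterval.toNNReal r • (x.1 * z.1) +
        unitInterval.toNNReal (unitInterval.symm r) • (y.1 * z.1)
    rw [add_mul, smul_mul_assoc, smul_mul_assoc]

theorem coe_mix {G : Type} (r : unitInterval) (x y : Dist G) : (mix r x y).1 =
    unitInterval.toNNReal r • x.1 + unitInterval.toNNReal (unitInterval.symm r) • y.1 := rfl

/-- The Dirac distribution on a word. -/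
noncomputable def dirac {G : Type} (w : FreeMonoid G) : Dist G :=
  ⟨MonoidAlgebra.single w 1, by
    show mass _ = 1
    simp [mass]⟩

/-- The smallest congruence of the free convex monoid `𝒟 G*` containing the set `R` of pairs. -/
inductive CongGen {G : Type} (R : Set (Dist G × Dist G)) : Dist G → Dist G → Prop
  | of {x y} : (x, y) ∈ R → CongGen R x y
  | refl (x) : CongGen R x x
  | symm {x y} : CongGen R x y → CongGen R y x
  | trans {x y z} : CongGen R x y → CongGen R y z → CongGen R x z
  | mix (r) {x x' y y'} : CongGen R x x' → CongGen R y y' →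
      CongGen R (ConvexMonoid.mix r x y) (ConvexMonoid.mix r x' y')
  | mul {x x' y y'} : CongGen R x x' → CongGen R y y' → CongGen R (x * y) (x' * y')

/-- A convex monoid `M` is finitely presentable if it is isomorphic to a quotient of the free convex
monoid `𝒟 G*` on a finite set `G` by a finitely generated congruence, that is, if there is a
surjective homomorphism `𝒟 G* → M` whose kernel is the congruence generated by finitely many
pairs. -/
def FinPresentable (M : Type) [ConvexMonoid M] : Prop :=
  ∃ (G : Type) (_ : Finite G) (φ : Hom (Dist G) M) (R : Set (Dist G × Dist G)),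
    Function.Surjective φ.toFun ∧ R.Finite ∧
      ∀ x y, φ.toFun x = φ.toFun y ↔ CongGen R x y

/-! ### Homomorphisms from `𝒟 G*` -/

theorem dirac_mul {G : Type} (v w : FreeMonoid G) : dirac (v * w) = dirac v * dirac w := by
  apply Subtype.ext
  show MonoidAlgebra.single (v * w) 1 = MonoidAlgebra.single v 1 * MonoidAlgebra.single w 1
  rw [MonoidAlgebra.single_mul_single, one_mul]

theorem dirac_one {G : Type} : (dirac 1 : Dist G) = 1 := rfl

/-- If the distribution `x` gives mass `c < 1` to `w` then it is a mixture of the Dirac distribution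
on `w` and of a distribution with one point less in its support. -/
theorem exists_mix {G : Type} (x : Dist G) (w : FreeMonoid G) (hw : w ∈ x.1.coeff.support) :
    x = dirac w ∨ ∃ (r : unitInterval) (y : Dist G), x = mix r (dirac w) y ∧
      y.1.coeff.support.card < x.1.coeff.support.card := by
  classical
  obtain ⟨c, hc⟩ : ∃ c, c = x.1.coeff w := ⟨_, rfl⟩
  have hsplit : c + mass (x.1.erase w) = 1 := by
    have h1 := congrArg mass (MonoidAlgebra.single_add_erase w x.1)
    rw [mass_dist, mass_eq, map_add, ← mass_eq, ← mass_eq, ← hc] at h1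
    rw [← h1]
    congr 1
    simp [mass]
  by_cases hm : mass (x.1.erase w) = 0
  · left
    apply Subtype.ext
    have h0 : x.1.erase w = 0 := by
      rw [← MonoidAlgebra.coeff_eq_zero]
      ext v
      unfold mass Finsupp.sum at hm
      rw [Finset.sum_eq_zero_iff] at hm
      by_cases hv : v ∈ (x.1.erase w).coeff.support
      · have := hm v hv
        simp only at this
        rw [this]
        rfl
      · rw [Finsupp.notMem_support_iff.1 hv]; rfl
    have h1 := MonoidAlgebra.single_add_erase w x.1
    rw [h0, add_zero, ← hc] at h1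
    rw [hm, add_zero] at hsplit
    rw [← h1, hsplit]
    rfl
  · right
    have hcle : c ≤ 1 := by rw [← hsplit]; exact le_self_add
    obtain ⟨r, hr⟩ : ∃ r : unitInterval, unitInterval.toNNReal r = c :=
      ⟨⟨c, c.2, by exact_mod_cast hcle⟩, by apply NNReal.eq; rfl⟩
    have hr' : unitInterval.toNNReal (unitInterval.symm r) = mass (x.1.erase w) := by
      have := toNNReal_add_symm r
      rw [hr, ← hsplit] at this
      exact add_left_cancel this
    refine ⟨r, ⟨(mass (x.1.erase w))⁻¹ • x.1.erase w, ?_⟩, ?_, ?_⟩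
    · show mass _ = 1
      rw [mass_eq, map_smul, ← mass_eq, smul_eq_mul, inv_mul_cancel₀ hm]
    · apply Subtype.ext
      rw [coe_mix, hr, hr']
      show x.1 = c • MonoidAlgebra.single w 1 + mass (x.1.erase w) •
        (mass (x.1.erase w))⁻¹ • x.1.erase w
      rw [smul_smul, mul_inv_cancel₀ hm, one_smul, MonoidAlgebra.smul_single, smul_eq_mul, mul_one,
        hc, MonoidAlgebra.single_add_erase]
    · apply Finset.card_lt_card
      refine Finset.ssubset_of_subset_of_ssubset (Finsupp.support_smul (M := ℝ≥0)) ?_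
      show ((x.1.erase w).coeff).support ⊂ _
      rw [MonoidAlgebra.coeff_erase, Finsupp.support_erase]
      exact Finset.erase_ssubset hw

theorem support_nonempty {G : Type} (x : Dist G) : x.1.coeff.support.Nonempty := by
  rw [Finset.nonempty_iff_ne_empty]
  intro h
  have h1 := mass_dist x
  unfold mass Finsupp.sum at h1
  rw [h] at h1
  simp at h1

/-- Two homomorphisms from `𝒟 G*` which agree on `G` are equal. -/
theorem hom_ext {G N : Type} [ConvexMonoid N] (f g : Hom (Dist G) N)
    (h : ∀ a : G, f.toFun (dirac (FreeMonoid.of a)) = g.toFun (dirac (FreeMonoid.of a))) :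
    ∀ x, f.toFun x = g.toFun x := by
  have h1 : ∀ w : FreeMonoid G, f.toFun (dirac w) = g.toFun (dirac w) := by
    intro w
    induction w using FreeMonoid.inductionOn' with
    | one => rw [dirac_one, f.map_one, g.map_one]
    | of_mul a w ih => rw [dirac_mul, f.map_mul, g.map_mul, h, ih]
  have h2 : ∀ (n : ℕ) (x : Dist G), x.1.coeff.support.card ≤ n → f.toFun x = g.toFun x := by
    intro n
    induction n with
    | zero =>
      intro x hx
      have := Finset.card_pos.2 (support_nonempty x)
      omega
    | succ n ih =>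
      intro x hx
      obtain ⟨w, hw⟩ := support_nonempty x
      rcases exists_mix x w hw with h3 | ⟨r, y, h3, h4⟩
      · rw [h3, h1]
      · rw [h3, f.map_mix, g.map_mix, h1, ih y (by omega)]
  exact fun x => h2 _ x le_rfl

/-- Extension of a map `G → 𝒟 H*` to a homomorphism. -/
noncomputable def extAlg {G H : Type} (g : G → Dist H) : Alg G →ₐ[ℝ≥0] Alg H :=
  MonoidAlgebra.lift ℝ≥0 (Alg H) (FreeMonoid G) (FreeMonoid.lift fun a => (g a).1)

theorem mass_extAlg {G H : Type} (g : G → Dist H) (x : Alg G) : mass (extAlg g x) = mass x := by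
  have h1 : (mom H 1).comp (extAlg g) = mom G 1 := by
    refine MonoidAlgebra.algHom_ext ?_ (Subsingleton.elim _ _)
    intro w
    show mom H 1 (extAlg g _) = mom G 1 _
    unfold extAlg
    rw [MonoidAlgebra.lift_single, one_smul]
    unfold mom
    rw [MonoidAlgebra.lift_single, one_smul]
    induction w using FreeMonoid.inductionOn' with
    | one => simp
    | of_mul a w ih =>
      rw [map_mul, map_mul, map_mul, ih]
      congr 1
      rw [FreeMonoid.lift_eval_of, FreeMonoid.lift_eval_of]
      have := mass_dist (g a)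
      rw [mass_eq] at this
      exact this
  rw [mass_eq, mass_eq]
  exact DFunLike.congr_fun h1 x

/-- Extension of a map `G → 𝒟 H*` to a homomorphism. -/
noncomputable def extHom {G H : Type} (g : G → Dist H) : Hom (Dist G) (Dist H) where
  toFun x := ⟨extAlg g x.1, by
    show mass _ = 1
    rw [mass_extAlg, mass_dist]⟩
  map_one := by
    apply Subtype.ext
    show extAlg g 1 = 1
    rw [map_one]
  map_mul x y := by
    apply Subtype.ext
    show extAlg g (x.1 * y.1) = extAlg g x.1 * extAlg g y.1
    rw [map_mul]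
  map_mix r x y := by
    apply Subtype.ext
    show extAlg g (unitInterval.toNNReal r • x.1 +
      unitInterval.toNNReal (unitInterval.symm r) • y.1) = unitInterval.toNNReal r •
      extAlg g x.1 + unitInterval.toNNReal (unitInterval.symm r) • extAlg g y.1
    rw [map_add, map_smul, map_smul]

theorem extHom_of {G H : Type} (g : G → Dist H) (a : G) :
    (extHom g).toFun (dirac (FreeMonoid.of a)) = g a := by
  apply Subtype.ext
  show extAlg g (MonoidAlgebra.single _ 1) = _
  unfold extAlg
  rw [MonoidAlgebra.lift_single, one_smul, FreeMonoid.lift_eval_of]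

/-- Composition of homomorphisms. -/
def Hom.comp {M N K : Type} [ConvexMonoid M] [ConvexMonoid N] [ConvexMonoid K] (f : Hom N K)
    (g : Hom M N) : Hom M K where
  toFun x := f.toFun (g.toFun x)
  map_one := by rw [g.map_one, f.map_one]
  map_mul x y := by rw [g.map_mul, f.map_mul]
  map_mix r x y := by rw [g.map_mix, f.map_mix]

/-- The identity. -/
def Hom.id (M : Type) [ConvexMonoid M] : Hom M M where
  toFun x := x
  map_one := rfl
  map_mul _ _ := rfl
  map_mix _ _ _ := rfl

/-! ### One generator -/

/-- The word `a ^ n` over the one-letter alphabet. -/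
def wd (n : ℕ) : FreeMonoid Unit := FreeMonoid.ofList (List.replicate n ())

theorem length_wd (n : ℕ) : (wd n).length = n := by
  show (List.replicate n ()).length = n
  simp

theorem eq_wd (w : FreeMonoid Unit) : w = wd w.length := by
  show w.toList = List.replicate w.toList.length ()
  rw [List.eq_replicate_iff]
  exact ⟨rfl, fun _ _ => rfl⟩

theorem mom_single {G : Type} (b : ℝ≥0) (w : FreeMonoid G) (r : ℝ≥0) :
    mom G b (MonoidAlgebra.single w r) = r * b ^ w.length := by
  unfold mom
  rw [MonoidAlgebra.lift_single, lift_pow, smul_eq_mul]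

theorem mom_dirac {G : Type} (b : ℝ≥0) (w : FreeMonoid G) :
    mom G b (dirac w).1 = b ^ w.length := by
  show mom G b (MonoidAlgebra.single w 1) = _
  rw [mom_single, one_mul]

/-- The relation: equality of the two moments. -/
def Rel {G : Type} (x y : Dist G) : Prop :=
  mom G 2⁻¹ x.1 = mom G 2⁻¹ y.1 ∧ mom G 4⁻¹ x.1 = mom G 4⁻¹ y.1

/-- The Dirac distributions are extreme. -/
theorem extreme {x : Dist Unit} {n : ℕ} (h : Rel x (dirac (wd n))) : x = dirac (wd n) := by
  obtain ⟨h1, h2⟩ := h
  rw [mom_dirac, length_wd] at h1 h2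
  rw [mom_apply] at h1 h2
  have hm := mass_dist x
  unfold mass at hm
  -- the variance is zero
  have key : ∑ w ∈ x.1.coeff.support,
      (x.1.coeff w : ℝ) * ((2⁻¹ : ℝ) ^ w.length - 2⁻¹ ^ n) ^ 2 = 0 := by
    have e1 : ∑ w ∈ x.1.coeff.support, (x.1.coeff w : ℝ) * (2⁻¹ : ℝ) ^ w.length = 2⁻¹ ^ n := by
      have := congrArg (fun r : ℝ≥0 => (r : ℝ)) h1
      simp only [Finsupp.sum] at this
      push_cast at this
      exact this
    have e2 : ∑ w ∈ x.1.coeff.support, (x.1.coeff w : ℝ) * (4⁻¹ : ℝ) ^ w.length = 4⁻¹ ^ n := by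
      have := congrArg (fun r : ℝ≥0 => (r : ℝ)) h2
      simp only [Finsupp.sum] at this
      push_cast at this
      exact this
    have e3 : ∑ w ∈ x.1.coeff.support, (x.1.coeff w : ℝ) = 1 := by
      have := congrArg (fun r : ℝ≥0 => (r : ℝ)) hm
      simp only [Finsupp.sum] at this
      push_cast at this
      exact this
    have e4 : ∀ k : ℕ, (4⁻¹ : ℝ) ^ k = (2⁻¹ ^ k) ^ 2 := by
      intro k
      rw [← pow_mul, mul_comm, pow_mul]
      norm_num
    have e5 : ∀ w ∈ x.1.coeff.support,
        (x.1.coeff w : ℝ) * ((2⁻¹ : ℝ) ^ w.length - 2⁻¹ ^ n) ^ 2 =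
        (x.1.coeff w : ℝ) * (4⁻¹ : ℝ) ^ w.length - 2 * 2⁻¹ ^ n *
          ((x.1.coeff w : ℝ) * (2⁻¹ : ℝ) ^ w.length) + (2⁻¹ ^ n) ^ 2 * (x.1.coeff w : ℝ) := by
      intro w _
      rw [e4]
      ring
    rw [Finset.sum_congr rfl e5, Finset.sum_add_distrib, Finset.sum_sub_distrib,
      ← Finset.mul_sum, ← Finset.mul_sum, e1, e2, e3, e4]
    ring
  rw [Finset.sum_eq_zero_iff_of_nonneg fun w _ => by positivity] at key
  have hsupp : ∀ w ∈ x.1.coeff.support, w = wd n := by
    intro w hw
    have h3 := key w hw
    have h4 : (x.1.coeff w : ℝ) ≠ 0 := by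
      exact_mod_cast Finsupp.mem_support_iff.1 hw
    have h5 := (mul_eq_zero.1 h3).resolve_left h4
    have h6 : (2⁻¹ : ℝ) ^ w.length = 2⁻¹ ^ n := by
      have := pow_eq_zero_iff (two_ne_zero) |>.1 h5
      linarith
    have h7 : w.length = n :=
      pow_right_injective₀ (by norm_num : (0 : ℝ) < 2⁻¹) (by norm_num) h6
    rw [eq_wd w, h7]
  obtain ⟨w, hw⟩ := support_nonempty x
  have hw' := hsupp w hw
  subst hw'
  rcases exists_mix x (wd n) hw with h3 | ⟨r, y, h3, h4⟩
  · exact h3
  · exfalso
    have h5 : x.1.coeff.support = {wd n} := by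
      ext v
      rw [Finset.mem_singleton]
      exact ⟨hsupp v, fun h => h ▸ hw⟩
    rw [h5, Finset.card_singleton] at h4
    have := Finset.card_pos.2 (support_nonempty y)
    omega

/-- The distributions on two words whose lengths differ by `g`. -/
def Rigid (g : ℕ) (x : Dist Unit) : Prop :=
  ∃ i : ℤ, ∀ w ∈ x.1.coeff.support, (w.length : ℤ) = i ∨ (w.length : ℤ) = i + g

theorem toNNReal_pos {r : unitInterval} (h : r ≠ 0) : 0 < unitInterval.toNNReal r := by
  rw [pos_iff_ne_zero]
  intro h'
  apply h
  have := congrArg (fun r : ℝ≥0 => (r : ℝ)) h'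
  simp only [unitInterval.coe_toNNReal] at this
  exact Subtype.ext this

theorem rigid_mix {g : ℕ} {r : unitInterval} {x y : Dist Unit} (h0 : r ≠ 0) (h1 : r ≠ 1)
    (h : Rigid g (mix r x y)) : Rigid g x ∧ Rigid g y := by
  obtain ⟨i, hi⟩ := h
  have hr := toNNReal_pos h0
  have hr' : 0 < unitInterval.toNNReal (unitInterval.symm r) := by
    apply toNNReal_pos
    intro h
    apply h1
    have := congrArg unitInterval.symm h
    rw [unitInterval.symm_symm, unitInterval.symm_zero] at this
    exact this
  have hcoe : ∀ w, (mix r x y).1.coeff w = unitInterval.toNNReal r * x.1.coeff w +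
      unitInterval.toNNReal (unitInterval.symm r) * y.1.coeff w := by
    intro w
    rw [coe_mix, MonoidAlgebra.coeff_add, Finsupp.add_apply, MonoidAlgebra.coeff_smul_apply,
      MonoidAlgebra.coeff_smul_apply, smul_eq_mul, smul_eq_mul]
  constructor
  · refine ⟨i, fun w hw => hi w ?_⟩
    rw [Finsupp.mem_support_iff, hcoe]
    have := pos_iff_ne_zero.2 (Finsupp.mem_support_iff.1 hw)
    positivity
  · refine ⟨i, fun w hw => hi w ?_⟩
    rw [Finsupp.mem_support_iff, hcoe]
    have := pos_iff_ne_zero.2 (Finsupp.mem_support_iff.1 hw)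
    positivity

theorem mem_support_mul {G : Type} {x y : Dist G} {v w : FreeMonoid G}
    (hv : v ∈ x.1.coeff.support) (hw : w ∈ y.1.coeff.support) :
    v * w ∈ (x * y).1.coeff.support := by
  classical
  rw [Finsupp.mem_support_iff]
  show (x.1 * y.1).coeff (v * w) ≠ 0
  rw [MonoidAlgebra.coeff_mul]
  apply ne_of_gt
  have hv' := pos_iff_ne_zero.2 (Finsupp.mem_support_iff.1 hv)
  have hw' := pos_iff_ne_zero.2 (Finsupp.mem_support_iff.1 hw)
  refine Finset.sum_pos' (fun _ _ => zero_le) ⟨v, hv, ?_⟩
  refine Finset.sum_pos' (fun _ _ => zero_le) ⟨w, hw, ?_⟩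
  simp only [if_true]
  positivity

theorem rigid_mul {g : ℕ} {x y : Dist Unit} (h : Rigid g (x * y)) : Rigid g x ∧ Rigid g y := by
  obtain ⟨i, hi⟩ := h
  constructor
  · obtain ⟨w, hw⟩ := support_nonempty y
    refine ⟨i - w.length, fun v hv => ?_⟩
    have := hi _ (mem_support_mul hv hw)
    rw [FreeMonoid.length_mul] at this
    push_cast at this
    omega
  · obtain ⟨w, hw⟩ := support_nonempty x
    refine ⟨i - w.length, fun v hv => ?_⟩
    have := hi _ (mem_support_mul hw hv)
    rw [FreeMonoid.length_mul] at this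
    push_cast at this
    omega

/-- A rigid distribution on words of length less than `g` is a Dirac distribution. -/
theorem rigid_short {g : ℕ} {x : Dist Unit} (h : Rigid g x)
    (hx : ∀ w ∈ x.1.coeff.support, w.length < g) : ∃ n, x = dirac (wd n) := by
  obtain ⟨i, hi⟩ := h
  obtain ⟨w, hw⟩ := support_nonempty x
  refine ⟨w.length, ?_⟩
  rw [← eq_wd]
  rcases exists_mix x w hw with h3 | ⟨r, y, h3, h4⟩
  · exact h3
  · exfalso
    have h5 : x.1.coeff.support = {w} := by
      ext v
      rw [Finset.mem_singleton]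
      constructor
      · intro hv
        have a1 := hi v hv
        have a2 := hi w hw
        have a3 := hx v hv
        have a4 := hx w hw
        have : v.length = w.length := by omega
        rw [eq_wd v, eq_wd w, this]
      · intro h
        rw [h]
        exact hw
    rw [h5, Finset.card_singleton] at h4
    have := Finset.card_pos.2 (support_nonempty y)
    omega

/-- The crossing segments. -/
theorem crossing (g : ℕ) (hg : 2 ≤ g) : ∃ t s : unitInterval, t ≠ 0 ∧
    Rel (mix t (dirac (wd 0)) (dirac (wd g))) (mix s (dirac (wd 1)) (dirac (wd (g + 1)))) := by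
  obtain ⟨ε, hε⟩ : ∃ ε : ℝ, ε = 2⁻¹ ^ g := ⟨_, rfl⟩
  have h0 : 0 < ε := by rw [hε]; positivity
  have h1 : ε ≤ 1 / 4 := by
    rw [hε]
    calc (2⁻¹ : ℝ) ^ g ≤ 2⁻¹ ^ 2 := pow_le_pow_of_le_one (by norm_num) (by norm_num) hg
      _ = 1 / 4 := by norm_num
  have hd : 0 < 1 - ε ^ 2 := by nlinarith
  obtain ⟨t, ht⟩ : ∃ t : ℝ, t = ε * (1 - 2 * ε) / (2 * (1 - ε ^ 2)) := ⟨_, rfl⟩
  obtain ⟨s, hs⟩ : ∃ s : ℝ, s = ε * (2 - ε) / (1 - ε ^ 2) := ⟨_, rfl⟩
  have ht0 : 0 < t := by
    rw [ht]
    apply div_pos _ (by linarith)
    apply mul_pos h0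
    linarith
  have ht1 : t ≤ 1 := by
    rw [ht, div_le_one (by linarith)]
    nlinarith
  have hs0 : 0 ≤ s := by
    rw [hs]
    apply div_nonneg _ hd.le
    apply mul_nonneg h0.le
    linarith
  have hs1 : s ≤ 1 := by
    rw [hs, div_le_one hd]
    nlinarith
  have e4 : (4⁻¹ : ℝ) ^ g = ε ^ 2 := by
    rw [hε, ← pow_mul, mul_comm, pow_mul]
    norm_num
  refine ⟨⟨t, ht0.le, ht1⟩, ⟨s, hs0, hs1⟩, ?_, ?_, ?_⟩
  · intro h
    have := congrArg (fun r : unitInterval => (r : ℝ)) h
    simp only [Set.Icc.coe_zero] at this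
    linarith
  · rw [coe_mix, coe_mix, map_add, map_add, map_smul, map_smul, map_smul, map_smul, mom_dirac,
      mom_dirac, mom_dirac, mom_dirac, length_wd, length_wd, length_wd, length_wd]
    apply NNReal.eq
    simp only [smul_eq_mul]
    push_cast
    simp only [unitInterval.coe_toNNReal, unitInterval.coe_symm_eq]
    rw [pow_succ (2⁻¹ : ℝ) g, ← hε, ht, hs]
    field_simp
    ring
  · rw [coe_mix, coe_mix, map_add, map_add, map_smul, map_smul, map_smul, map_smul, mom_dirac,
      mom_dirac, mom_dirac, mom_dirac, length_wd, length_wd, length_wd, length_wd]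
    apply NNReal.eq
    simp only [smul_eq_mul]
    push_cast
    simp only [unitInterval.coe_toNNReal, unitInterval.coe_symm_eq]
    rw [pow_succ (4⁻¹ : ℝ) g, e4, ht, hs]
    field_simp
    ring

/-- The abstract form of the result. -/
theorem not_fp (M : Type) [ConvexMonoid M] (π : Hom (Dist Unit) M)
    (hπ : Function.Surjective π.toFun) (hker : ∀ x y, π.toFun x = π.toFun y ↔ Rel x y) :
    ¬ FinPresentable M := by
  classical
  rintro ⟨G, hG, φ, R, hφ, hR, hcong⟩
  choose ψ₀ hψ₀ using fun a : G => hπ (φ.toFun (dirac (FreeMonoid.of a)))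
  obtain ⟨u, hu⟩ := hφ (π.toFun (dirac (FreeMonoid.of ())))
  have hψ : ∀ x, π.toFun ((extHom ψ₀).toFun x) = φ.toFun x := by
    apply hom_ext (π.comp (extHom ψ₀)) φ
    intro a
    show π.toFun ((extHom ψ₀).toFun _) = _
    rw [extHom_of, hψ₀]
  have hofwd : FreeMonoid.of () = wd 1 := rfl
  have hψu : (extHom ψ₀).toFun u = dirac (FreeMonoid.of ()) := by
    have h1 := hψ u
    rw [hu, hker, hofwd] at h1
    rw [hofwd]
    exact extreme h1
  have hχ : ∀ x, (extHom ψ₀).toFun ((extHom fun _ => u).toFun x) = x := by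
    apply hom_ext ((extHom ψ₀).comp (extHom fun _ => u)) (Hom.id _)
    intro a
    show (extHom ψ₀).toFun ((extHom fun _ => u).toFun _) = _
    rw [extHom_of, hψu]
    rfl
  -- a large gap
  obtain ⟨N, hN⟩ : ∃ N : ℕ, ∀ p ∈ R, (∀ w ∈ ((extHom ψ₀).toFun p.1).1.coeff.support,
      w.length < N) ∧ ∀ w ∈ ((extHom ψ₀).toFun p.2).1.coeff.support, w.length < N := by
    obtain ⟨N, hN⟩ : ∃ N, N = hR.toFinset.sup (fun p =>
      (((extHom ψ₀).toFun p.1).1.coeff.support.sup FreeMonoid.length) +
      (((extHom ψ₀).toFun p.2).1.coeff.support.sup FreeMonoid.length)) + 1 := ⟨_, rfl⟩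
    refine ⟨N, fun p hp => ?_⟩
    have h1 := Finset.le_sup (f := fun p : Dist G × Dist G =>
      (((extHom ψ₀).toFun p.1).1.coeff.support.sup FreeMonoid.length) +
      (((extHom ψ₀).toFun p.2).1.coeff.support.sup FreeMonoid.length))
      (hR.mem_toFinset.2 hp)
    refine ⟨fun w hw => ?_, fun w hw => ?_⟩
    · have h2 := Finset.le_sup (f := FreeMonoid.length) hw
      omega
    · have h2 := Finset.le_sup (f := FreeMonoid.length) hw
      omega
  obtain ⟨g, hg⟩ : ∃ g, g = N + 2 := ⟨_, rfl⟩
  have hK : ∀ x y, CongGen R x y → (extHom ψ₀).toFun x = (extHom ψ₀).toFun y ∨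
      (¬ Rigid g ((extHom ψ₀).toFun x) ∧ ¬ Rigid g ((extHom ψ₀).toFun y)) := by
    intro x y h
    induction h with
    | @of x y hxy =>
      by_cases he : (extHom ψ₀).toFun x = (extHom ψ₀).toFun y
      · exact Or.inl he
      · right
        have h1 : Rel ((extHom ψ₀).toFun x) ((extHom ψ₀).toFun y) := by
          rw [← hker, hψ, hψ]
          exact (hcong x y).2 (CongGen.of hxy)
        obtain ⟨h2, h3⟩ := hN _ hxy
        constructor
        · intro hrig
          obtain ⟨n, hn⟩ := rigid_short hrig fun w hw => by have := h2 w hw; omega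
          apply he
          have h4 : Rel ((extHom ψ₀).toFun y) (dirac (wd n)) := by
            rw [← hn]
            exact ⟨h1.1.symm, h1.2.symm⟩
          rw [hn, extreme h4]
        · intro hrig
          obtain ⟨n, hn⟩ := rigid_short hrig fun w hw => by have := h3 w hw; omega
          apply he
          have h4 : Rel ((extHom ψ₀).toFun x) (dirac (wd n)) := by
            rw [← hn]
            exact h1
          rw [hn, extreme h4]
    | refl x => exact Or.inl rfl
    | symm _ ih =>
      rcases ih with ih | ih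
      · exact Or.inl ih.symm
      · exact Or.inr ⟨ih.2, ih.1⟩
    | trans _ _ ih1 ih2 =>
      rcases ih1 with ih1 | ih1
      · rw [ih1]; exact ih2
      · rcases ih2 with ih2 | ih2
        · rw [← ih2]; exact Or.inr ih1
        · exact Or.inr ⟨ih1.1, ih2.2⟩
    | @mix r x x' y y' _ _ ih1 ih2 =>
      rw [(extHom ψ₀).map_mix, (extHom ψ₀).map_mix]
      by_cases hr0 : r = 0
      · subst hr0
        rw [mix_comm, mix_comm 0, unitInterval.symm_zero, mix_one, mix_one]
        exact ih2
      by_cases hr1 : r = 1
      · subst hr1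
        rw [mix_one, mix_one]
        exact ih1
      rcases ih1 with ih1 | ih1
      · rcases ih2 with ih2 | ih2
        · rw [ih1, ih2]; exact Or.inl rfl
        · exact Or.inr ⟨fun h => ih2.1 (rigid_mix hr0 hr1 h).2,
            fun h => ih2.2 (rigid_mix hr0 hr1 h).2⟩
      · exact Or.inr ⟨fun h => ih1.1 (rigid_mix hr0 hr1 h).1,
          fun h => ih1.2 (rigid_mix hr0 hr1 h).1⟩
    | @mul x x' y y' _ _ ih1 ih2 =>
      rw [(extHom ψ₀).map_mul, (extHom ψ₀).map_mul]
      rcases ih1 with ih1 | ih1
      · rcases ih2 with ih2 | ih2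
        · rw [ih1, ih2]; exact Or.inl rfl
        · exact Or.inr ⟨fun h => ih2.1 (rigid_mul h).2, fun h => ih2.2 (rigid_mul h).2⟩
      · exact Or.inr ⟨fun h => ih1.1 (rigid_mul h).1, fun h => ih1.2 (rigid_mul h).1⟩
  obtain ⟨t, s, ht, hrel⟩ := crossing g (by omega)
  have hfin := hK ((extHom fun _ => u).toFun (mix t (dirac (wd 0)) (dirac (wd g))))
    ((extHom fun _ => u).toFun (mix s (dirac (wd 1)) (dirac (wd (g + 1))))) (by
      rw [← hcong, ← hψ, ← hψ, hχ, hχ, hker]
      exact hrel)
  rw [hχ, hχ] at hfin
  rcases hfin with h | ⟨h, -⟩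
  · have h1 := congrArg (fun x : Dist Unit => x.1.coeff (wd 0)) h
    simp only [coe_mix, MonoidAlgebra.coeff_add, Finsupp.add_apply,
      MonoidAlgebra.coeff_smul_apply, smul_eq_mul] at h1
    have hne : ∀ m n : ℕ, m ≠ n → (dirac (wd m)).1.coeff (wd n) = 0 := by
      intro m n hmn
      show (MonoidAlgebra.single (wd m) (1 : ℝ≥0)).coeff (wd n) = 0
      rw [MonoidAlgebra.coeff_single, Finsupp.single_eq_of_ne]
      intro h
      have := congrArg FreeMonoid.length h
      rw [length_wd, length_wd] at this
      exact hmn this.symm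
    have hee : (dirac (wd 0)).1.coeff (wd 0) = 1 := by
      show (MonoidAlgebra.single (wd 0) (1 : ℝ≥0)).coeff (wd 0) = 1
      rw [MonoidAlgebra.coeff_single, Finsupp.single_eq_same]
    rw [hee, hne g 0 (by omega), hne 1 0 (by omega), hne (g + 1) 0 (by omega)] at h1
    simp only [mul_one, mul_zero, add_zero] at h1
    exact (toNNReal_pos ht).ne' h1
  · apply h
    refine ⟨0, fun w hw => ?_⟩
    have h1 : w = wd 0 ∨ w = wd g := by
      by_contra hcon
      push Not at hcon
      apply Finsupp.mem_support_iff.1 hw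
      simp only [coe_mix, MonoidAlgebra.coeff_add, Finsupp.add_apply,
        MonoidAlgebra.coeff_smul_apply, smul_eq_mul]
      have hne : ∀ m : ℕ, w ≠ wd m → (dirac (wd m)).1.coeff w = 0 := by
        intro m hm
        show (MonoidAlgebra.single (wd m) (1 : ℝ≥0)).coeff w = 0
        rw [MonoidAlgebra.coeff_single, Finsupp.single_eq_of_ne]
        exact hm
      rw [hne 0 hcon.1, hne g hcon.2, mul_zero, mul_zero, add_zero]
    rcases h1 with rfl | rfl
    · left; rw [length_wd]; rfl
    · right; rw [length_wd]; simp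

/-! ### Languages, syntactic convex monoids and probabilistic automata -/

/-- The affine extension `L̂` of a language `L : A* → ℝ`. -/
noncomputable def Lhat {A : Type} (L : List A → ℝ) (x : Alg A) : ℝ :=
  x.coeff.sum fun w r => (r : ℝ) * L (FreeMonoid.toList w)

/-- The syntactic congruence. -/
def SynRel {A : Type} (L : List A → ℝ) (μ ν : Dist A) : Prop :=
  ∀ x y : FreeMonoid A, Lhat L (dirac x * μ * dirac y).1 = Lhat L (dirac x * ν * dirac y).1

theorem Lhat_add {A : Type} (L : List A → ℝ) (x y : Alg A) :
    Lhat L (x + y) = Lhat L x + Lhat L y := by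
  classical
  unfold Lhat
  rw [MonoidAlgebra.coeff_add, Finsupp.sum_add_index']
  · intro w; simp
  · intro w r r'; push_cast; ring

theorem Lhat_smul {A : Type} (L : List A → ℝ) (c : ℝ≥0) (x : Alg A) :
    Lhat L (c • x) = c * Lhat L x := by
  unfold Lhat
  rw [MonoidAlgebra.coeff_smul, Finsupp.sum_smul_index']
  · rw [Finsupp.mul_sum]
    congr 1
    funext w r
    rw [smul_eq_mul]
    push_cast
    ring
  · intro w; simp

theorem Lhat_zero {A : Type} (L : List A → ℝ) : Lhat L (0 : Alg A) = 0 := by
  simp [Lhat]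

theorem lin_right {A : Type} {L : List A → ℝ} {a b : Alg A}
    (h : ∀ w, Lhat L (a * MonoidAlgebra.single w 1) = Lhat L (b * MonoidAlgebra.single w 1))
    (z : Alg A) : Lhat L (a * z) = Lhat L (b * z) := by
  induction z using MonoidAlgebra.induction_linear with
  | zero => rw [mul_zero, mul_zero]
  | add x y hx hy => rw [mul_add, mul_add, Lhat_add, Lhat_add, hx, hy]
  | single w r =>
    have : (MonoidAlgebra.single w r : Alg A) = r • MonoidAlgebra.single w 1 := by
      rw [MonoidAlgebra.smul_single, smul_eq_mul, mul_one]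
    rw [this, mul_smul_comm, mul_smul_comm, Lhat_smul, Lhat_smul, h]

theorem lin_left {A : Type} {L : List A → ℝ} {a b : Alg A}
    (h : ∀ w, Lhat L (MonoidAlgebra.single w 1 * a) = Lhat L (MonoidAlgebra.single w 1 * b))
    (z : Alg A) : Lhat L (z * a) = Lhat L (z * b) := by
  induction z using MonoidAlgebra.induction_linear with
  | zero => rw [zero_mul, zero_mul]
  | add x y hx hy => rw [add_mul, add_mul, Lhat_add, Lhat_add, hx, hy]
  | single w r =>
    have : (MonoidAlgebra.single w r : Alg A) = r • MonoidAlgebra.single w 1 := by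
      rw [MonoidAlgebra.smul_single, smul_eq_mul, mul_one]
    rw [this, smul_mul_assoc, smul_mul_assoc, Lhat_smul, Lhat_smul, h]

theorem synRel_mul {A : Type} {L : List A → ℝ} {μ μ' ν ν' : Dist A} (h : SynRel L μ μ')
    (h' : SynRel L ν ν') : SynRel L (μ * ν) (μ' * ν') := by
  intro x y
  have e1 : Lhat L (dirac x * (μ * ν) * dirac y).1 = Lhat L (dirac x * (μ' * ν) * dirac y).1 := by
    have := lin_right (L := L) (a := (dirac x).1 * μ.1) (b := (dirac x).1 * μ'.1)
      (fun w => h x w) (ν.1 * (dirac y).1)
    have a1 : (dirac x * (μ * ν) * dirac y).1 = (dirac x).1 * μ.1 * (ν.1 * (dirac y).1) := by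
      show (dirac x).1 * (μ.1 * ν.1) * (dirac y).1 = _
      simp only [mul_assoc]
    have a2 : (dirac x * (μ' * ν) * dirac y).1 = (dirac x).1 * μ'.1 * (ν.1 * (dirac y).1) := by
      show (dirac x).1 * (μ'.1 * ν.1) * (dirac y).1 = _
      simp only [mul_assoc]
    rw [a1, a2, this]
  have e2 : Lhat L (dirac x * (μ' * ν) * dirac y).1 =
      Lhat L (dirac x * (μ' * ν') * dirac y).1 := by
    have := lin_left (L := L) (a := ν.1 * (dirac y).1) (b := ν'.1 * (dirac y).1)
      (fun w => by
        have := h' w y
        have a1 : (dirac w * ν * dirac y).1 =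
            MonoidAlgebra.single w 1 * (ν.1 * (dirac y).1) := by
          show MonoidAlgebra.single w 1 * ν.1 * (dirac y).1 = _
          rw [mul_assoc]
        have a2 : (dirac w * ν' * dirac y).1 =
            MonoidAlgebra.single w 1 * (ν'.1 * (dirac y).1) := by
          show MonoidAlgebra.single w 1 * ν'.1 * (dirac y).1 = _
          rw [mul_assoc]
        rw [← a1, ← a2, this]) ((dirac x).1 * μ'.1)
    have a1 : (dirac x * (μ' * ν) * dirac y).1 = (dirac x).1 * μ'.1 * (ν.1 * (dirac y).1) := by
      show (dirac x).1 * (μ'.1 * ν.1) * (dirac y).1 = _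
      simp only [mul_assoc]
    have a2 : (dirac x * (μ' * ν') * dirac y).1 =
        (dirac x).1 * μ'.1 * (ν'.1 * (dirac y).1) := by
      show (dirac x).1 * (μ'.1 * ν'.1) * (dirac y).1 = _
      simp only [mul_assoc]
    rw [a1, a2, this]
  rw [e1, e2]

theorem synRel_mix {A : Type} {L : List A → ℝ} (r : unitInterval) {μ μ' ν ν' : Dist A}
    (h : SynRel L μ μ') (h' : SynRel L ν ν') : SynRel L (mix r μ ν) (mix r μ' ν') := by
  intro x y
  have key : ∀ μ ν : Dist A, Lhat L (dirac x * mix r μ ν * dirac y).1 =
      unitInterval.toNNReal r * Lhat L (dirac x * μ * dirac y).1 +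
        unitInterval.toNNReal (unitInterval.symm r) * Lhat L (dirac x * ν * dirac y).1 := by
    intro μ ν
    rw [mul_mix, mix_mul, coe_mix, Lhat_add, Lhat_smul, Lhat_smul]
  rw [key, key, h x y, h' x y]

/-- The syntactic congruence as an equivalence relation. -/
def synSetoid {A : Type} (L : List A → ℝ) : Setoid (Dist A) where
  r := SynRel L
  iseqv := ⟨fun _ _ _ => rfl, fun h x y => (h x y).symm, fun h h' x y => (h x y).trans (h' x y)⟩

/-- The syntactic convex monoid. -/
def Syn {A : Type} (L : List A → ℝ) : Type := Quotient (synSetoid L)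

noncomputable instance {A : Type} (L : List A → ℝ) : ConvexMonoid (Syn L) where
  mul := Quotient.map₂ (· * ·) fun _ _ h _ _ h' => synRel_mul h h'
  one := Quotient.mk _ 1
  mul_assoc := by
    rintro ⟨a⟩ ⟨b⟩ ⟨c⟩
    exact congrArg (Quotient.mk (synSetoid L)) (mul_assoc a b c)
  one_mul := by
    rintro ⟨a⟩
    exact congrArg (Quotient.mk (synSetoid L)) (one_mul a)
  mul_one := by
    rintro ⟨a⟩
    exact congrArg (Quotient.mk (synSetoid L)) (mul_one a)
  mix r := Quotient.map₂ (mix r) fun _ _ h _ _ h' => synRel_mix r h h'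
  mix_one := by
    rintro ⟨a⟩ ⟨b⟩
    exact congrArg (Quotient.mk (synSetoid L)) (mix_one a b)
  mix_self := by
    rintro r ⟨a⟩
    exact congrArg (Quotient.mk (synSetoid L)) (mix_self r a)
  mix_comm := by
    rintro r ⟨a⟩ ⟨b⟩
    exact congrArg (Quotient.mk (synSetoid L)) (mix_comm r a b)
  mix_assoc := by
    rintro r s t u ⟨a⟩ ⟨b⟩ ⟨c⟩ h1 h2
    exact congrArg (Quotient.mk (synSetoid L)) (mix_assoc r s t u a b c h1 h2)
  mul_mix := by
    rintro r ⟨a⟩ ⟨b⟩ ⟨c⟩
    exact congrArg (Quotient.mk (synSetoid L)) (mul_mix r a b c)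
  mix_mul := by
    rintro r ⟨a⟩ ⟨b⟩ ⟨c⟩
    exact congrArg (Quotient.mk (synSetoid L)) (mix_mul r a b c)

/-- The projection. -/
def proj {A : Type} (L : List A → ℝ) : Hom (Dist A) (Syn L) where
  toFun := Quotient.mk (synSetoid L)
  map_one := rfl
  map_mul _ _ := rfl
  map_mix _ _ _ := rfl

/-- A probabilistic finite automaton over the alphabet `A`. -/
structure PFA (A : Type) where
  Q : Type
  [fin : Fintype Q]
  init : Q → ℝ
  step : A → Q → Q → ℝ
  out : Q → ℝ
  init_mem : init ∈ stdSimplex ℝ Q
  step_mem : ∀ a q, step a q ∈ stdSimplex ℝ Q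
  out_mem : ∀ q, out q ∈ Set.Icc (0 : ℝ) 1

attribute [instance] PFA.fin

/-- The value assigned to a word: the expected value of the output at the state reached by the
random run. -/
noncomputable def PFA.value {A : Type} (P : PFA A) (w : List A) : ℝ :=
  ∑ q, (w.foldl (fun (d : P.Q → ℝ) a q' => ∑ q, d q * P.step a q q') P.init) q * P.out q

/-- `L` is computed by a probabilistic finite automaton. -/
def PFAComputable {A : Type} (L : List A → ℝ) : Prop := ∃ P : PFA A, ∀ w, P.value w = L w

/-! ### The language -/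

/-- The language `(2^{-|w|} + 4^{-|w|}) / 2`. -/
noncomputable def lang (A : Type) (w : List A) : ℝ := (2⁻¹ ^ w.length + 4⁻¹ ^ w.length) / 2

/-- The automaton. -/
noncomputable def aut (A : Type) : PFA A where
  Q := Fin 3
  init := ![1 / 2, 1 / 2, 0]
  step := fun _ q => ![![1 / 2, 0, 1 / 2], ![0, 1 / 4, 3 / 4], ![0, 0, 1]] q
  out := ![1, 1, 0]
  init_mem := by
    refine ⟨fun q => ?_, ?_⟩
    · fin_cases q <;> norm_num
    · show ∑ q : Fin 3, (![1 / 2, 1 / 2, 0] : Fin 3 → ℝ) q = 1
      rw [Fin.sum_univ_three]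
      show (1 / 2 : ℝ) + 1 / 2 + 0 = 1
      norm_num
  step_mem := by
    intro a q
    fin_cases q
    · refine ⟨fun q => ?_, ?_⟩
      · fin_cases q <;> norm_num
      · refine (Fin.sum_univ_three _).trans ?_
        show (1 / 2 : ℝ) + 0 + 1 / 2 = 1
        norm_num
    · refine ⟨fun q => ?_, ?_⟩
      · fin_cases q <;> norm_num
      · refine (Fin.sum_univ_three _).trans ?_
        show (0 : ℝ) + 1 / 4 + 3 / 4 = 1
        norm_num
    · refine ⟨fun q => ?_, ?_⟩
      · fin_cases q <;> norm_num
      · refine (Fin.sum_univ_three _).trans ?_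
        show (0 : ℝ) + 0 + 1 = 1
        norm_num
  out_mem := by
    intro q
    fin_cases q <;> norm_num

theorem lang_computable (A : Type) : PFAComputable (lang A) := by
  refine ⟨aut A, fun w => ?_⟩
  have key : ∀ (w : List A) (d : Fin 3 → ℝ),
      (w.foldl (fun (d : Fin 3 → ℝ) a q' => ∑ q : Fin 3, d q * (aut A).step a q q') d) 0 =
        d 0 * 2⁻¹ ^ w.length ∧
      (w.foldl (fun (d : Fin 3 → ℝ) a q' => ∑ q : Fin 3, d q * (aut A).step a q q') d) 1 =
        d 1 * 4⁻¹ ^ w.length := by
    intro w
    induction w with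
    | nil => intro d; simp
    | cons a w ih =>
      intro d
      rw [List.foldl_cons]
      obtain ⟨h1, h2⟩ := ih (fun q' => ∑ q : Fin 3, d q * (aut A).step a q q')
      rw [h1, h2]
      rw [Fin.sum_univ_three, Fin.sum_univ_three, List.length_cons, pow_succ, pow_succ]
      simp only [aut]
      constructor
      · simp
        ring
      · simp
        ring
  show ∑ q : Fin 3, (w.foldl (fun (d : Fin 3 → ℝ) a q' => ∑ q : Fin 3, d q *
    (aut A).step a q q') ![1 / 2, 1 / 2, 0]) q * (![1, 1, 0] : Fin 3 → ℝ) q = _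
  rw [Fin.sum_univ_three]
  obtain ⟨h1, h2⟩ := key w ![1 / 2, 1 / 2, 0]
  rw [h1, h2]
  unfold lang
  simp
  ring

theorem Lhat_lang {A : Type} (x : Alg A) :
    Lhat (lang A) x = ((mom A 2⁻¹ x : ℝ≥0) + (mom A 4⁻¹ x : ℝ≥0) : ℝ) / 2 := by
  rw [mom_apply, mom_apply]
  unfold Lhat lang Finsupp.sum
  push_cast
  rw [← Finset.sum_add_distrib, Finset.sum_div]
  apply Finset.sum_congr rfl
  intro w _
  show (x.coeff w : ℝ) * ((2⁻¹ ^ w.length + 4⁻¹ ^ w.length) / 2) = _
  ring

theorem synRel_iff {A : Type} (a₀ : A) (μ ν : Dist A) : SynRel (lang A) μ ν ↔ Rel μ ν := by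
  have key : ∀ (x y : FreeMonoid A) (μ : Dist A), Lhat (lang A) (dirac x * μ * dirac y).1 =
      (2⁻¹ ^ x.length * (mom A 2⁻¹ μ.1 : ℝ≥0) * 2⁻¹ ^ y.length +
        4⁻¹ ^ x.length * (mom A 4⁻¹ μ.1 : ℝ≥0) * 4⁻¹ ^ y.length) / 2 := by
    intro x y μ
    rw [Lhat_lang]
    have : (dirac x * μ * dirac y).1 = (dirac x).1 * μ.1 * (dirac y).1 := rfl
    rw [this, map_mul, map_mul, map_mul, map_mul, mom_dirac, mom_dirac, mom_dirac, mom_dirac]
    push_cast
    rfl
  constructor
  · intro h
    have h1 := h 1 1
    have h2 := h (FreeMonoid.of a₀) 1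
    rw [key, key] at h1 h2
    have e1 : (1 : FreeMonoid A).length = 0 := rfl
    have e2 : (FreeMonoid.of a₀).length = 1 := rfl
    rw [e1] at h1 h2
    rw [e2] at h2
    simp only [pow_zero, pow_one, one_mul, mul_one] at h1 h2
    constructor
    · apply NNReal.eq
      linarith
    · apply NNReal.eq
      linarith
  · rintro ⟨h1, h2⟩ x y
    rw [key, key, h1, h2]

theorem mom_extAlg {G H : Type} (g : G → Dist H) (b : ℝ≥0) (hb : ∀ a, mom H b (g a).1 = b)
    (x : Alg G) : mom H b (extAlg g x) = mom G b x := by
  have h1 : (mom H b).comp (extAlg g) = mom G b := by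
    refine MonoidAlgebra.algHom_ext ?_ (Subsingleton.elim _ _)
    intro w
    show mom H b (extAlg g _) = mom G b _
    unfold extAlg
    rw [MonoidAlgebra.lift_single, one_smul, mom_single, one_mul, ← lift_pow b w]
    induction w using FreeMonoid.inductionOn' with
    | one => simp
    | of_mul a w ih =>
      rw [map_mul, map_mul, map_mul, ih]
      congr 1
      rw [FreeMonoid.lift_eval_of, FreeMonoid.lift_eval_of]
      exact hb a
  exact DFunLike.congr_fun h1 x

/-- **Main result.**  Over every nonempty finite alphabet there is a PFA-computable probabilistic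
language whose syntactic convex monoid is not finitely presentable. -/
theorem result (A : Type) [Finite A] [Nonempty A] :
    ∃ L : List A → ℝ, (∀ w, L w ∈ Set.Icc (0 : ℝ) 1) ∧ PFAComputable L ∧
      ¬ FinPresentable (Syn L) := by
  obtain ⟨a₀⟩ := ‹Nonempty A›
  refine ⟨lang A, fun w => ?_, lang_computable A, ?_⟩
  · unfold lang
    have h1 : (2⁻¹ : ℝ) ^ w.length ≤ 1 := pow_le_one₀ (by norm_num) (by norm_num)
    have h2 : (4⁻¹ : ℝ) ^ w.length ≤ 1 := pow_le_one₀ (by norm_num) (by norm_num)
    exact ⟨by positivity, by linarith⟩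
  · have hmom : ∀ (b : ℝ≥0) (x : Dist Unit),
        mom A b ((extHom fun _ : Unit => dirac (FreeMonoid.of a₀)).toFun x).1 =
          mom Unit b x.1 := by
      intro b x
      apply mom_extAlg
      intro a
      rw [mom_dirac]
      simp
    have hmom' : ∀ (b : ℝ≥0) (x : Dist A),
        mom Unit b ((extHom fun _ : A => dirac (FreeMonoid.of ())).toFun x).1 =
          mom A b x.1 := by
      intro b x
      apply mom_extAlg
      intro a
      rw [mom_dirac]
      simp
    refine not_fp (Syn (lang A))
      ((proj (lang A)).comp (extHom fun _ : Unit => dirac (FreeMonoid.of a₀))) ?_ ?_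
    · rintro ⟨μ⟩
      refine ⟨(extHom fun _ : A => dirac (FreeMonoid.of ())).toFun μ, ?_⟩
      apply Quotient.sound
      show SynRel _ _ _
      rw [synRel_iff a₀]
      exact ⟨by rw [hmom, hmom'], by rw [hmom, hmom']⟩
    · intro x y
      have h1 : ((proj (lang A)).comp (extHom fun _ : Unit =>
          dirac (FreeMonoid.of a₀))).toFun x = ((proj (lang A)).comp (extHom fun _ : Unit =>
          dirac (FreeMonoid.of a₀))).toFun y ↔ SynRel (lang A)
          ((extHom fun _ : Unit => dirac (FreeMonoid.of a₀)).toFun x)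
          ((extHom fun _ : Unit => dirac (FreeMonoid.of a₀)).toFun y) :=
        ⟨fun h => Quotient.exact h, fun h => Quotient.sound h⟩
      rw [h1, synRel_iff a₀]
      unfold Rel
      rw [hmom, hmom, hmom, hmom]

end Pool.Agent.Results.MP_492578_lc.NotFinitelyPresentable
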